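import Pool.Agent.Q284.NP.Stm

/-!
# Job FLD of project NP (helper284), by helper150

An element of a finitely generated field extension of characteristic `p` which is a `p ^ n`-th power
for all `n` is algebraic.
-/

set_option autoImplicit false

namespace Pool.Agent.Q150.NP.Fld

open Polynomial IntermediateField

/-- a transcendental element `z` is not a `p`-th power in `F(z)` -/
lemma not_pow {F L : Type} [Field F] [Field L] [Algebra F L] {z : L} (hz : Transcendental F z)
    {p : ℕ} (hp : 2 ≤ p) {u : L} (hu : u ∈ adjoin F {z}) : u ^ p ≠ z := by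
  intro h
  obtain ⟨r, s, rfl⟩ := (mem_adjoin_simple_iff F u).1 hu
  have hz0 : z ≠ 0 := by
    rintro rfl
    exact hz isAlgebraic_zero
  have hs : aeval z s ≠ 0 := by
    intro h1
    rw [h1, div_zero, zero_pow (by omega)] at h
    exact hz0 h.symm
  have hs0 : s ≠ 0 := by
    rintro rfl
    exact hs (map_zero _)
  have h1 : aeval z (r ^ p) = aeval z (X * s ^ p) := by
    rw [map_mul, aeval_X, map_pow, map_pow]
    rw [div_pow, div_eq_iff (pow_ne_zero _ hs)] at h
    exact h
  have h2 : r ^ p = X * s ^ p := (transcendental_iff_injective.1 hz) h1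
  have h3 := congrArg natDegree h2
  rw [natDegree_pow, natDegree_X_mul (pow_ne_zero _ hs0), natDegree_pow] at h3
  have h4 : p ∣ 1 := by
    have h5 : p ∣ p * s.natDegree + 1 := ⟨_, h3.symm⟩
    exact (Nat.dvd_add_right (dvd_mul_right _ _)).1 h5
  have := Nat.le_of_dvd one_pos h4
  omega

/-- roots of high order have large degree -/
lemma degree_root {E L : Type} [Field E] [Field L] [Algebra E L] {p : ℕ} [Fact p.Prime] [CharP E p]
    {z : L} (hz : ∀ u : E, algebraMap E L u ^ p ≠ z) [FiniteDimensional E L] {n : ℕ} {w : L}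
    (hz' : w ^ p ^ n = z) (hE : ∃ c : E, algebraMap E L c = z) : p ^ n ≤ Module.finrank E L := by
  have hint : IsIntegral E w := Algebra.IsIntegral.isIntegral w
  have hexp : ExpChar E p := ExpChar.prime (Fact.out)
  have hpi : IsPurelyInseparable E E⟮w⟯ := by
    rw [isPurelyInseparable_adjoin_simple_iff_pow_mem E L p]
    obtain ⟨c, hc⟩ := hE
    exact ⟨n, c, by rw [hc, hz']⟩
  obtain ⟨k, c, hk⟩ := IsPurelyInseparable.minpoly_eq_X_pow_sub_C E p (AdjoinSimple.gen E w)
  rw [minpoly_gen] at hk
  have h1 : w ^ p ^ k = algebraMap E L c := by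
    have h2 := minpoly.aeval E w
    rw [hk, map_sub, map_pow, aeval_X, aeval_C, sub_eq_zero] at h2
    exact h2
  have hnk : n ≤ k := by
    by_contra hlt
    push Not at hlt
    obtain ⟨m, rfl⟩ : ∃ m, n = k + m + 1 := ⟨n - k - 1, by omega⟩
    apply hz (c ^ p ^ m)
    rw [map_pow, ← h1, ← hz', ← pow_mul, ← pow_mul]
    congr 1
    ring
  have hdeg : (minpoly E w).natDegree = p ^ k := by
    rw [hk, natDegree_sub_C, natDegree_X_pow]
  calc p ^ n ≤ p ^ k := Nat.pow_le_pow_right (Fact.out (p := p.Prime)).pos hnk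
    _ = (minpoly E w).natDegree := hdeg.symm
    _ ≤ Module.finrank E L := minpoly.natDegree_le w

/-- JOB FLD of project NP -/
theorem fld : Pool.Agent.Q284.NP.S_FLD := by
  intro p hp K L _ _ _ _ _ z hz
  by_contra htr
  have htr' : Transcendental K z := htr
  have hind : AlgebraicIndepOn K id ({z} : Set L) := by
    have h1 := (algebraicIndependent_singleton_iff (R := K) (x := ((↑) : ({z} : Set L) → L))
      ⟨z, rfl⟩).2 htr'
    exact h1
  obtain ⟨t, hzt, ht⟩ := exists_isTranscendenceBasis_superset hind
  have hzt' : z ∈ t := hzt rfl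
  set E : IntermediateField K L := adjoin K t with hE
  have halg : Algebra.IsAlgebraic E L := by
    have h1 := ht.isAlgebraic_field
    rw [Subtype.range_coe] at h1
    exact h1
  have hess : Algebra.EssFiniteType E L := .of_comp K E L
  have hfin : Module.Finite E L := Algebra.finite_of_essFiniteType_of_isAlgebraic
  have hcE : CharP E p := charP_of_injective_algebraMap (algebraMap K E).injective p
  set t' : Set L := t \ {z} with ht'
  have htrF : Transcendental (adjoin K t') z := by
    rw [transcendental_adjoin_iff]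
    have h1 := ht.1.transcendental_adjoin (s := {i : t | (i : L) ≠ z}) (i := ⟨z, hzt'⟩)
      (by simp)
    have h2 : ((↑) : t → L) '' {i : t | (i : L) ≠ z} = t' := by
      ext x
      constructor
      · rintro ⟨i, hi, rfl⟩
        exact ⟨i.2, hi⟩
      · rintro ⟨hx, hx'⟩
        exact ⟨⟨x, hx⟩, hx', rfl⟩
    rw [h2] at h1
    exact h1
  have hsub : ∀ u : L, u ∈ E → u ∈ adjoin (adjoin K t') ({z} : Set L) := by
    intro u hu
    have h1 : (adjoin (adjoin K t') ({z} : Set L)).restrictScalars K = adjoin K (t' ∪ {z}) :=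
      adjoin_adjoin_left K t' {z}
    have h2 : t' ∪ {z} = t := by
      rw [ht', Set.sdiff_union_self, Set.union_eq_left]
      exact hzt
    have h3 : u ∈ (adjoin (adjoin K t') ({z} : Set L)).restrictScalars K := by
      rw [h1, h2]
      exact hu
    exact h3
  have hnot : ∀ u : E, algebraMap E L u ^ p ≠ z := fun u =>
    not_pow htrF hp.1.two_le (hsub _ u.2)
  obtain ⟨w, hw⟩ := hz (Module.finrank E L)
  have h1 := degree_root hnot hw ⟨⟨z, subset_adjoin K t hzt'⟩, rfl⟩
  have h2 : Module.finrank E L < p ^ Module.finrank E L := Nat.lt_pow_self hp.1.one_lt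
  omega

end Pool.Agent.Q150.NP.Fld
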