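import Pool.Agent.Q284.NP.Stm

/-!
# Job RAT of project NP (helper284), by helper150

The curve `y^p - y = x^(p+1)` has only constant points over `RatFunc (ZMod p)`.
-/

set_option autoImplicit false

namespace Pool.Agent.Q150.NP.Rat

open Polynomial

variable {p : ℕ} [hp : Fact p.Prime]

/-- the exponent `e = (p + 1) (p - 1)` -/
lemma exp_rel : (p + 1) * (p - 1) + 1 = p * p := by
  obtain ⟨k, hk⟩ : ∃ k, p = k + 1 := ⟨p - 1, by have := hp.1.one_lt; omega⟩
  rw [hk]
  simp only [Nat.add_sub_cancel]
  ring

/-- degree estimate for `a d' - a' d` -/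
lemma deg_wr (a d : (ZMod p)[X]) (h : a * derivative d - derivative a * d ≠ 0) :
    (a * derivative d - derivative a * d).natDegree + 1 ≤ a.natDegree + d.natDegree := by
  by_cases ha : a.natDegree = 0
  · have h1 : derivative a = 0 := by
      rw [natDegree_eq_zero.1 ha |>.choose_spec.symm, derivative_C]
    rw [h1, zero_mul, sub_zero] at h ⊢
    have h2 : d.natDegree ≠ 0 := by
      intro h3
      apply h
      rw [natDegree_eq_zero.1 h3 |>.choose_spec.symm, derivative_C, mul_zero]
    have h3 := natDegree_derivative_lt h2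
    have h4 := natDegree_mul_le (p := a) (q := derivative d)
    omega
  · have h1 := natDegree_derivative_lt ha
    by_cases hd : d.natDegree = 0
    · have h2 : derivative d = 0 := by
        rw [natDegree_eq_zero.1 hd |>.choose_spec.symm, derivative_C]
      rw [h2, mul_zero, zero_sub, natDegree_neg]
      have h4 := natDegree_mul_le (p := derivative a) (q := d)
      omega
    · have h2 := natDegree_derivative_lt hd
      have h3 := natDegree_sub_le (a * derivative d) (derivative a * d)
      have h4 := natDegree_mul_le (p := derivative a) (q := d)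
      have h5 := natDegree_mul_le (p := a) (q := derivative d)
      have h6 : max (a * derivative d).natDegree (derivative a * d).natDegree + 1 ≤
          a.natDegree + d.natDegree := by
        rw [Nat.succ_le_iff, max_lt_iff]
        omega
      omega

/-- the polynomial identity forces a zero derivative -/
lemma deriv_zero (r a d : (ZMod p)[X]) (hd : d.Monic) (hc : IsCoprime r d)
    (h : r ^ (p + 1) = a ^ p - a * d ^ ((p + 1) * (p - 1))) : derivative r = 0 := by
  have hp2 : 2 ≤ p := hp.1.two_le
  set e := (p + 1) * (p - 1) with he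
  have her : e + 1 = p * p := exp_rel
  have he3 : 3 ≤ e := by nlinarith
  obtain ⟨f, hf⟩ : ∃ f, e = f + 1 := ⟨e - 1, by omega⟩
  have hd0 : d ≠ 0 := hd.ne_zero
  have hecast : ((e : ℕ) : ZMod p) = -1 := by
    have h1 : ((e + 1 : ℕ) : ZMod p) = 0 := by
      rw [her]
      push_cast
      rw [ZMod.natCast_self, zero_mul]
    push_cast at h1
    exact eq_neg_of_add_eq_zero_left h1
  -- the derivative of the identity
  have h1 : r ^ p * derivative r = d ^ f * (a * derivative d - derivative a * d) := by
    have h2 := congrArg derivative h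
    rw [derivative_pow, derivative_sub, derivative_mul, derivative_pow, derivative_pow, hecast, hf,
      Nat.add_sub_cancel, Nat.add_sub_cancel] at h2
    push_cast at h2
    rw [ZMod.natCast_self] at h2
    simp only [map_zero, map_one, zero_add, one_mul, zero_mul, zero_sub, map_neg] at h2
    rw [h2, pow_succ]
    ring
  have hdvd : d ^ f ∣ derivative r := by
    have h2 : IsCoprime (d ^ f) (r ^ p) := (hc.symm.pow)
    exact h2.dvd_of_dvd_mul_left ⟨_, h1⟩
  obtain ⟨q, hq⟩ := hdvd
  by_contra hr
  have hq0 : q ≠ 0 := by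
    rintro rfl
    exact hr (by rw [hq, mul_zero])
  have h3 : r ^ p * q = a * derivative d - derivative a * d := by
    have h4 : d ^ f * (r ^ p * q) = d ^ f * (a * derivative d - derivative a * d) := by
      rw [← h1, hq]
      ring
    exact mul_left_cancel₀ (pow_ne_zero _ hd0) h4
  have hr0 : r ≠ 0 := by
    rintro rfl
    exact hr derivative_zero
  have hrd : r.natDegree ≠ 0 := by
    intro h4
    apply hr
    rw [natDegree_eq_zero.1 h4 |>.choose_spec.symm, derivative_C]
  have h5 := natDegree_derivative_lt hrd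
  rw [hq, natDegree_mul (pow_ne_zero _ hd0) hq0, natDegree_pow] at h5
  have hne : a * derivative d - derivative a * d ≠ 0 := by
    rw [← h3]
    exact mul_ne_zero (pow_ne_zero _ hr0) hq0
  have h6 := deg_wr a d hne
  rw [← h3, natDegree_mul (pow_ne_zero _ hr0) hq0, natDegree_pow] at h6
  generalize hR : r.natDegree = R at *
  generalize hA : a.natDegree = A at *
  generalize hD : d.natDegree = D at *
  generalize hQ : q.natDegree = Q at *
  have hf2 : f + 2 = p * p := by omega
  by_cases hAD : (p + 1) * D < A
  · have ha0 : a ≠ 0 := by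
      rintro rfl
      rw [natDegree_zero] at hA
      omega
    have h7 : (a ^ p - a * d ^ e).natDegree = p * A := by
      have h8 : (a ^ p).natDegree = p * A := by rw [natDegree_pow, hA]
      have h9 : (a * d ^ e).natDegree = A + e * D := by
        rw [natDegree_mul ha0 (pow_ne_zero _ hd0), natDegree_pow, hA, hD]
      have h10 : A + e * D < p * A := by
        obtain ⟨k, hk⟩ : ∃ k, p = k + 1 := ⟨p - 1, by omega⟩
        have h11 : e = (k + 2) * k := by
          rw [he, hk, Nat.add_sub_cancel]
        have h12 : (k + 2) * D < A := by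
          rw [hk] at hAD
          exact hAD
        have h13 : 1 ≤ k := by omega
        rw [h11, hk]
        nlinarith [Nat.mul_lt_mul_of_pos_left h12 (by omega : 0 < k)]
      rw [natDegree_sub_eq_left_of_natDegree_lt (by rw [h8, h9]; exact h10), h8]
    rw [← h, natDegree_pow, hR] at h7
    -- (p + 1) R = p A, p R + Q + 1 ≤ A + D, f D + Q < R
    have h14 : p * (p * R + Q + 1) ≤ (p + 1) * R + p * D := by
      rw [h7]
      nlinarith
    have h15 : R ≤ (p * p - p - 1) * R := by
      have : 1 ≤ p * p - p - 1 := by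
        have : p + 2 ≤ p * p := by nlinarith
        omega
      nlinarith
    have h16 : (p * p - p - 1) * R + (p + 1) * R = p * (p * R) := by
      have h17 : p * p - p - 1 + (p + 1) = p * p := by
        have : p + 2 ≤ p * p := by nlinarith
        omega
      rw [← add_mul, h17]
      ring
    have h18 : p ≤ f := by nlinarith
    nlinarith
  · push Not at hAD
    have h7 : p * R + Q + 1 ≤ (p + 2) * D := by nlinarith
    have h8 : p * (f * D + Q + 1) ≤ p * R := Nat.mul_le_mul_left _ (by omega)
    have h9 : p + 2 ≤ p * f := by nlinarith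
    nlinarith [Nat.mul_le_mul_right D h9]

/-- the induction -/
lemma main : ∀ (n : ℕ) (r s : (ZMod p)[X]) (y : RatFunc (ZMod p)), s.Monic → IsCoprime r s →
    r.natDegree + s.natDegree = n →
    y ^ p - y = (algebraMap (ZMod p)[X] (RatFunc (ZMod p)) r /
      algebraMap (ZMod p)[X] (RatFunc (ZMod p)) s) ^ (p + 1) → n = 0 := by
  intro n
  induction n using Nat.strong_induction_on with
  | _ n ih =>
  intro r s y hs hc hn hy
  have hp2 : 2 ≤ p := hp.1.two_le
  set φ := algebraMap (ZMod p)[X] (RatFunc (ZMod p)) with hφ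
  have hinj : Function.Injective φ := RatFunc.algebraMap_injective _
  set a := y.num with ha
  set b := y.denom with hb
  have hbm : b.Monic := RatFunc.monic_denom y
  have hab : IsCoprime a b := RatFunc.isCoprime_num_denom y
  have hyab : y = φ a / φ b := (RatFunc.num_div_denom y).symm
  have hb0 : φ b ≠ 0 := fun h => hbm.ne_zero (hinj (by rw [h, map_zero]))
  have hs0 : φ s ≠ 0 := fun h => hs.ne_zero (hinj (by rw [h, map_zero]))
  obtain ⟨k, hk⟩ : ∃ k, p = k + 1 := ⟨p - 1, by omega⟩
  have hk1 : 1 ≤ k := by omega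
  have hpoly : (a ^ p - a * b ^ (p - 1)) * s ^ (p + 1) = r ^ (p + 1) * b ^ p := by
    apply hinj
    simp only [map_mul, map_sub, map_pow]
    have h1 : y ^ p - y = (φ a ^ p - φ a * φ b ^ (p - 1)) / φ b ^ p := by
      rw [hyab, div_pow, eq_div_iff (pow_ne_zero _ hb0), sub_mul, div_mul_cancel₀ _ (pow_ne_zero _ hb0)]
      congr 1
      have h2 : φ b ^ p = φ b * φ b ^ (p - 1) := by
        rw [← pow_succ', Nat.sub_add_cancel (by omega)]
      rw [h2, ← mul_assoc, div_mul_cancel₀ _ hb0]
    rw [h1, div_pow, div_eq_div_iff (pow_ne_zero _ hb0) (pow_ne_zero _ hs0)] at hy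
    exact hy
  have hcop : IsCoprime (a ^ p - a * b ^ (p - 1)) b := by
    have h1 : IsCoprime (a ^ p) b := hab.pow_left
    have h2 : b ∣ a * b ^ (p - 1) := Dvd.dvd.mul_left (dvd_pow_self b (by omega)) a
    obtain ⟨c, hc⟩ := h2
    rw [hc, sub_eq_add_neg, ← mul_neg]
    exact (IsCoprime.add_mul_left_left_iff).2 h1
  have hd1 : b ^ p ∣ s ^ (p + 1) := by
    have h1 : IsCoprime (b ^ p) (a ^ p - a * b ^ (p - 1)) := hcop.symm.pow_left
    exact h1.dvd_of_dvd_mul_left ⟨r ^ (p + 1), by rw [hpoly]; ring⟩
  have hd2 : s ^ (p + 1) ∣ b ^ p := by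
    have h1 : IsCoprime (s ^ (p + 1)) (r ^ (p + 1)) := hc.symm.pow
    exact h1.dvd_of_dvd_mul_left ⟨a ^ p - a * b ^ (p - 1), by rw [← hpoly]; ring⟩
  have hbs : b ^ p = s ^ (p + 1) :=
    Polynomial.eq_of_monic_of_associated (hbm.pow _) (hs.pow _) (associated_of_dvd_dvd hd1 hd2)
  have hsb : s ∣ b := by
    have h1 : s ^ p ∣ b ^ p := by
      rw [hbs]
      exact pow_dvd_pow _ (by omega)
    exact (UniqueFactorizationMonoid.pow_dvd_pow_iff_dvd (by omega)).1 h1
  obtain ⟨d, hd⟩ := hsb
  have hdm : d.Monic := by
    have h1 : (s * d).Monic := hd ▸ hbm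
    exact hs.of_mul_monic_left h1
  have hsd : s = d ^ p := by
    have h1 : s ^ p * d ^ p = s ^ p * s := by
      rw [← mul_pow, ← hd, hbs, pow_succ]
    exact (mul_left_cancel₀ (pow_ne_zero _ hs.ne_zero) h1).symm
  have hcd : IsCoprime r d := by
    rw [hsd] at hc
    exact (IsCoprime.pow_right_iff (by omega)).1 hc
  have hmain : r ^ (p + 1) = a ^ p - a * d ^ ((p + 1) * (p - 1)) := by
    have h1 : b = d ^ (p + 1) := by rw [hd, hsd, pow_succ]
    rw [h1, hsd, ← pow_mul, ← pow_mul, ← pow_mul] at hpoly
    have h2 : p * (p + 1) = (p + 1) * p := mul_comm _ _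
    rw [h2] at hpoly
    exact (mul_right_cancel₀ (pow_ne_zero _ hdm.ne_zero) hpoly).symm
  have hder := deriv_zero r a d hdm hcd hmain
  set g := contract p r with hg
  have hrg : r = g ^ p := by
    rw [← ZMod.expand_card, hg, expand_contract p hder (by omega)]
  have hcp : CharP (RatFunc (ZMod p)) p := charP_of_injective_algebraMap
    (algebraMap (ZMod p) (RatFunc (ZMod p))).injective p
  have hgd : IsCoprime g d := by
    rw [hrg, IsCoprime.pow_left_iff (by omega)] at hcd
    exact hcd
  have hn1 : n = p * (g.natDegree + d.natDegree) := by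
    rw [← hn]
    conv_lhs => rw [hrg, hsd, natDegree_pow, natDegree_pow]
    ring
  by_contra hn0
  have hpos : 0 < g.natDegree + d.natDegree := by
    rcases Nat.eq_zero_or_pos (g.natDegree + d.natDegree) with h | h
    · rw [h, mul_zero] at hn1
      exact absurd hn1 hn0
    · exact h
  have hlt : g.natDegree + d.natDegree < n := by
    rw [hn1]
    nlinarith
  have hx : φ r / φ s = (φ g / φ d) ^ p := by
    rw [hrg, hsd, map_pow, map_pow, div_pow]
  have h3 := ih _ hlt g d (y - (φ g / φ d) ^ (p + 1)) hdm hgd rfl (by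
    rw [sub_pow_char, ← pow_mul, mul_comm (p + 1) p, pow_mul, ← hx, ← hy]
    ring)
  omega

/-- JOB RAT of project NP -/
theorem rat : Pool.Agent.Q284.NP.S_RAT := by
  intro p hp x y hxy
  have h := main (x.num.natDegree + x.denom.natDegree) x.num x.denom y (RatFunc.monic_denom x)
    (RatFunc.isCoprime_num_denom x) rfl (by rw [RatFunc.num_div_denom]; exact hxy)
  have h1 : x.num.natDegree = 0 := by omega
  have h2 : x.denom.natDegree = 0 := by omega
  obtain ⟨c, hc⟩ := natDegree_eq_zero.1 h1
  have h3 : x.denom = 1 := (Polynomial.Monic.natDegree_eq_zero (RatFunc.monic_denom x)).1 h2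
  refine ⟨c, ?_⟩
  rw [← RatFunc.num_div_denom x, ← hc, h3, map_one, div_one, RatFunc.algebraMap_C]

end Pool.Agent.Q150.NP.Rat
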